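import Pool.Agent.Helper51.LPS.St

/-! LPS module BAND. -/

set_option autoImplicit false

namespace Pool.Agent.Helper61.LPS

open MeasureTheory Pool.Helper51.PSB Pool.Helper51.LPS

theorem band_range {k : ℕ} (J : V k →ₗᵢ[ℝ] W k) (u : W k) (hu : ‖u‖ = 1)
    (h0 : ∀ y, (inner ℝ (J y) u : ℝ) = 0) (v : W k) (hv : (inner ℝ v u : ℝ) = 0) : ∃ y, J y = v := by
  have hu0 : u ≠ 0 := by
    intro h
    rw [h, norm_zero] at hu
    exact zero_ne_one hu
  have hle : LinearMap.range J.toLinearMap ≤ (Submodule.span ℝ {u})ᗮ := by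
    rintro _ ⟨y, rfl⟩
    rw [Submodule.mem_orthogonal_singleton_iff_inner_left]
    exact h0 y
  have : Fact (Module.finrank ℝ (W k) = (k + 2) + 1) := ⟨by simp⟩
  have hf1 : Module.finrank ℝ (Submodule.span ℝ {u})ᗮ = k + 2 :=
    Submodule.finrank_orthogonal_span_singleton hu0
  have hf2 : Module.finrank ℝ (LinearMap.range J.toLinearMap) = k + 2 := by
    rw [LinearMap.finrank_range_of_inj J.injective]
    simp
  have heq : LinearMap.range J.toLinearMap = (Submodule.span ℝ {u})ᗮ :=
    Submodule.eq_of_le_of_finrank_eq hle (by rw [hf1, hf2])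
  have hmem : v ∈ LinearMap.range J.toLinearMap := by
    rw [heq, Submodule.mem_orthogonal_singleton_iff_inner_left]
    exact hv
  obtain ⟨y0, hy0⟩ := hmem
  exact ⟨y0, hy0⟩

theorem band_coord {k : ℕ} (J : V k →ₗᵢ[ℝ] W k) (y : V k) (l : Fin (k + 3)) :
    J y l = ∑ i, y i * J (EuclideanSpace.single i (1 : ℝ)) l := by
  have hy : y = ∑ i, y i • (EuclideanSpace.single i (1 : ℝ) : V k) := by
    ext j
    simp [Finset.sum_apply, Pi.single_apply]
  conv_lhs => rw [hy]
  rw [map_sum]
  simp [map_smul]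

theorem hBand : StBand := by
  intro k w φ J u hu h0 hJ h11 h01 hi1 v hv hvu
  obtain ⟨y, rfl⟩ := band_range J u hu h0 v hvu
  have hy : ‖y‖ = 1 := by rw [← J.norm_map y]; exact hv
  have h1 : ∀ l, J y l = ∑ i, y i * frame w φ i l := by
    intro l
    rw [band_coord J y l]
    exact Finset.sum_congr rfl fun i _ => by rw [hJ]
  have h2 : ∀ i : Fin (k + 2), i ≠ 0 → ∑ l, frame w φ i l * w 1 l = 0 := by
    intro i hi
    have : ∀ l, frame w φ i l = w i.succ l := by
      intro l
      simp [frame, hi]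
    simp_rw [this]
    exact hi1 i hi
  have h3 : ∑ l, frame w φ 0 l * w 1 l = Real.sin φ := by
    have : ∀ l, frame w φ 0 l * w 1 l = Real.cos φ * (w 0 l * w 1 l) + Real.sin φ * w 1 l ^ 2 := by
      intro l
      simp only [frame, if_true]
      ring
    simp_rw [this]
    rw [Finset.sum_add_distrib, ← Finset.mul_sum, ← Finset.mul_sum, h01, h11]
    ring
  have h4 : ∑ l, J y l * w 1 l = y 0 * Real.sin φ := by
    have : ∀ l, J y l * w 1 l = ∑ i, y i * (frame w φ i l * w 1 l) := by
      intro l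
      rw [h1 l, Finset.sum_mul]
      exact Finset.sum_congr rfl fun i _ => by ring
    simp_rw [this]
    rw [Finset.sum_comm]
    simp_rw [← Finset.mul_sum]
    rw [Finset.sum_eq_single 0]
    · rw [h3]
    · intro i _ hi
      rw [h2 i hi, mul_zero]
    · intro h
      exact absurd (Finset.mem_univ _) h
  rw [h4, abs_mul]
  have h5 : |y 0| ≤ 1 := by
    have := EuclideanSpace.norm_eq y
    have h6 : ‖y 0‖ ≤ ‖y‖ := PiLp.norm_apply_le y 0
    rw [hy, Real.norm_eq_abs] at h6
    exact h6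
  have h7 : |Real.sin φ| ≤ |φ| := Real.abs_sin_le_abs
  calc |y 0| * |Real.sin φ| ≤ 1 * |φ| :=
        mul_le_mul h5 h7 (abs_nonneg _) (by norm_num)
    _ = |φ| := one_mul _

end Pool.Agent.Helper61.LPS
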